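import Pool.Agent.Lib.MP_b07a8a_nt.SP.A8
import Pool.Agent.Lib.MP_b07a8a_nt.Core.Core

/-!
# Sieve and parity (MP_b07a8a_nt): assembly

The sieve theorem `poly_almost_prime` is applied to the product of all the rows; then `core` gives the
parities.
-/

set_option autoImplicit false

namespace Pool.Agent.SievePar.Core

open ArithmeticFunction Finset Polynomial

/-- The number `n (n + 1) / 2 + 1`. -/
def fT (n : ℕ) : ℕ := n * (n + 1) / 2 + 1

/-- `n` and `n (n + 1) / 2 + 1` have at most `K` prime factors and both have an odd number of prime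
factors. -/
def Good (K n : ℕ) : Prop :=
  0 < n ∧ cardFactors n ≤ K ∧ Odd (cardFactors n) ∧ cardFactors (fT n) ≤ K ∧
    Odd (cardFactors (fT n))

noncomputable def toPoly : List ℕ → ℤ[X]
  | [] => 0
  | a :: l => C (a : ℤ) + X * toPoly l

theorem eval_toPoly (l : List ℕ) (w : ℕ) : (toPoly l).eval (w : ℤ) = (ev l w : ℤ) := by
  induction l with
  | nil => simp [toPoly, ev]
  | cons a l ih =>
    simp only [toPoly, ev, eval_add, eval_mul, eval_C, eval_X, ih]
    push_cast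
    ring

/-- The product of all `n (n ^ 2 + n + 2)`. -/
noncomputable def GG : ℤ[X] :=
  (rows.map fun r => toPoly r.n * (toPoly r.n ^ 2 + toPoly r.n + 2)).prod

theorem eval_GG (w : ℕ) : GG.eval (w : ℤ) =
    (((rows.map fun r => ev r.n w * (ev r.n w ^ 2 + ev r.n w + 2)).prod : ℕ) : ℤ) := by
  unfold GG
  generalize rows = l
  induction l with
  | nil => simp
  | cons r l ih =>
    simp only [List.map_cons, List.prod_cons, eval_mul, ih]
    push_cast
    simp only [eval_add, eval_pow, eval_toPoly, eval_ofNat]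

theorem coeff_GG : GG.coeff 0 ≠ 0 := by
  rw [Polynomial.coeff_zero_eq_eval_zero]
  have h := eval_GG 0
  rw [Nat.cast_zero] at h
  rw [h]
  have : (rows.map fun r => ev r.n 0 * (ev r.n 0 ^ 2 + ev r.n 0 + 2)).prod ≠ 0 := by
    refine List.prod_ne_zero ?_
    intro h0
    obtain ⟨r, hr, h1⟩ := List.mem_map.mp h0
    have h2 := (row_spec hr 0).1
    have h3 : 0 < ev r.n 0 * (ev r.n 0 ^ 2 + ev r.n 0 + 2) := by positivity
    omega
  exact_mod_cast this

theorem Omega_mono {a b : ℕ} (h : a ∣ b) (hb : b ≠ 0) : cardFactors a ≤ cardFactors b := by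
  obtain ⟨k, rfl⟩ := h
  rw [cardFactors_mul (left_ne_zero_of_mul hb) (right_ne_zero_of_mul hb)]
  exact Nat.le_add_right _ _

theorem row_good {K w : ℕ} (h0 : GG.eval (w : ℤ) ≠ 0)
    (hK : cardFactors (GG.eval (w : ℤ)).natAbs ≤ K) :
    ∃ r ∈ rows, Good K (ev r.n w) := by
  obtain ⟨r, hr, h1, h2⟩ := core w
  have hpos := (row_spec hr w).1
  have hG : (GG.eval (w : ℤ)).natAbs =
      (rows.map fun r => ev r.n w * (ev r.n w ^ 2 + ev r.n w + 2)).prod := by
    rw [eval_GG, Int.natAbs_natCast]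
  have hG0 : (GG.eval (w : ℤ)).natAbs ≠ 0 := Int.natAbs_ne_zero.mpr h0
  have hdvd : ev r.n w * (ev r.n w ^ 2 + ev r.n w + 2) ∣ (GG.eval (w : ℤ)).natAbs := by
    rw [hG]
    exact List.dvd_prod (List.mem_map.mpr ⟨r, hr, rfl⟩)
  have hd1 : ev r.n w ∣ (GG.eval (w : ℤ)).natAbs := (Dvd.intro _ rfl).trans hdvd
  have hd2 : fT (ev r.n w) ∣ (GG.eval (w : ℤ)).natAbs := by
    refine Dvd.dvd.trans ?_ hdvd
    rw [two_mul_f]
    exact Dvd.intro_left (ev r.n w * 2) (by unfold fT; ring)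
  exact ⟨r, hr, hpos, (Omega_mono hd1 hG0).trans hK, h1, (Omega_mono hd2 hG0).trans hK, h2⟩

/-! ### Counting -/

theorem rows_mono_ok : rows.all (fun r => decide (0 < (r.n.getD 1 0)) &&
    decide (r.n.length ≤ 5)) = true := by decide +kernel

theorem ev_mono (l : List ℕ) {a b : ℕ} (h : a ≤ b) : ev l a ≤ ev l b := by
  induction l with
  | nil => exact le_rfl
  | cons c l ih =>
    simp only [ev]
    exact Nat.add_le_add_left (Nat.mul_le_mul h ih) _

theorem ev_strict {l : List ℕ} (hl : 0 < l.getD 1 0) {a b : ℕ} (h : a < b) : ev l a < ev l b := by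
  match l, hl with
  | c :: d :: l, hl =>
    have hd : 0 < d := by simpa using hl
    simp only [ev]
    have h1 := ev_mono l h.le
    have h2 : a * (d + a * ev l a) < b * (d + b * ev l b) := by
      calc a * (d + a * ev l a) ≤ a * (d + b * ev l b) :=
            Nat.mul_le_mul_left _ (Nat.add_le_add_left (Nat.mul_le_mul h.le h1) _)
        _ < b * (d + b * ev l b) := Nat.mul_lt_mul_of_pos_right h (by omega)
    omega

theorem rows_inj {r : Row} (hr : r ∈ rows) {a b : ℕ} (h : ev r.n a = ev r.n b) : a = b := by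
  have h1 := List.all_eq_true.mp rows_mono_ok r hr
  simp only [Bool.and_eq_true, decide_eq_true_eq] at h1
  rcases lt_trichotomy a b with h2 | h2 | h2
  · exact absurd h (ev_strict h1.1 h2).ne
  · exact h2
  · exact absurd h (ev_strict h1.1 h2).ne'

theorem ev_le (l : List ℕ) {w W : ℕ} (hw : w ≤ W) (hW : 1 ≤ W) :
    ev l w ≤ l.sum * W ^ (l.length - 1) := by
  induction l with
  | nil => simp [ev]
  | cons a l ih =>
    simp only [ev, List.sum_cons, List.length_cons, Nat.add_sub_cancel]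
    rcases Nat.eq_zero_or_pos l.length with h0 | h0
    · have : l = [] := List.length_eq_zero_iff.mp h0
      subst this
      simp [ev]
    · have h1 : w * ev l w ≤ l.sum * W ^ l.length := by
        calc w * ev l w ≤ W * (l.sum * W ^ (l.length - 1)) := Nat.mul_le_mul hw ih
          _ = l.sum * (W ^ (l.length - 1) * W) := by ring
          _ = l.sum * W ^ l.length := by rw [← pow_succ, Nat.sub_add_cancel h0]
      have h2 : a ≤ a * W ^ l.length := Nat.le_mul_of_pos_right _ (Nat.pow_pos hW)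
      calc a + w * ev l w ≤ a * W ^ l.length + l.sum * W ^ l.length := Nat.add_le_add h2 h1
        _ = (a + l.sum) * W ^ l.length := by ring

/-- The sum of all coefficients of the rows. -/
def BB : ℕ := (rows.map fun r => r.n.sum).sum

theorem rows_le {r : Row} (hr : r ∈ rows) {w W : ℕ} (hw : w ≤ W) (hW : 1 ≤ W) :
    ev r.n w ≤ BB * W ^ 4 := by
  have h1 := List.all_eq_true.mp rows_mono_ok r hr
  simp only [Bool.and_eq_true, decide_eq_true_eq] at h1
  have h2 := ev_le r.n hw hW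
  have h3 : r.n.sum ≤ BB := List.single_le_sum (by simp) _ (List.mem_map.mpr ⟨r, hr, rfl⟩)
  calc ev r.n w ≤ r.n.sum * W ^ (r.n.length - 1) := h2
    _ ≤ BB * W ^ 4 := Nat.mul_le_mul h3 (Nat.pow_le_pow_right hW (by omega))

theorem BB_pos : 0 < BB := by decide +kernel

attribute [local irreducible] rows BB

open Classical in
/-- The good numbers up to `N`. -/
noncomputable def goodSet (K N : ℕ) : Finset ℕ := (Finset.Icc 1 N).filter (Good K)

theorem mem_goodSet {K N n : ℕ} : n ∈ goodSet K N ↔ (1 ≤ n ∧ n ≤ N) ∧ Good K n := by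
  classical
  unfold goodSet
  rw [Finset.mem_filter, Finset.mem_Icc]

theorem goodSet_count {c K y N : ℕ} (hc : 1 ≤ c) (hN : BB * (c * y) ^ 4 ≤ N) :
    (gd GG c K y).card ≤ rows.length * (goodSet K N).card := by
  classical
  have hex : ∀ s : ℕ, ∃ i : ℕ, s ∈ gd GG c K y → i < rows.length ∧
      Good K (ev (rows.getD i ⟨[], [], [], [], [], [], []⟩).n (c * s)) := by
    intro s
    by_cases hs : s ∈ gd GG c K y
    · rw [mem_gd] at hs
      obtain ⟨r, hr, hg⟩ := row_good hs.2.1 hs.2.2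
      obtain ⟨i, hi, rfl⟩ := List.mem_iff_getElem.mp hr
      refine ⟨i, fun _ => ⟨hi, ?_⟩⟩
      rw [List.getD_eq_getElem _ _ hi]
      exact hg
    · exact ⟨0, fun h => absurd h hs⟩
  choose i hi using hex
  have hmaps : ∀ s ∈ gd GG c K y,
      (i s, ev (rows.getD (i s) ⟨[], [], [], [], [], [], []⟩).n (c * s)) ∈
        (Finset.range rows.length) ×ˢ (goodSet K N) := by
    intro s hs
    obtain ⟨h1, h2⟩ := hi s hs
    rw [Finset.mem_product]
    refine ⟨Finset.mem_range.mpr h1, ?_⟩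
    unfold goodSet
    rw [Finset.mem_filter, Finset.mem_Icc]
    refine ⟨⟨h2.1, ?_⟩, h2⟩
    have hs2 := (mem_gd.mp hs).1
    have hy : 1 ≤ y := by omega
    have hcy : 1 ≤ c * y := Nat.mul_pos hc hy
    refine le_trans ?_ hN
    refine rows_le ?_ (Nat.mul_le_mul_left c hs2.le) hcy
    rw [List.getD_eq_getElem _ _ h1]
    exact List.getElem_mem h1
  have hcard := Finset.card_le_card_of_injOn
    (fun s => (i s, ev (rows.getD (i s) ⟨[], [], [], [], [], [], []⟩).n (c * s))) hmaps (by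
      intro s hs s' hs' heq
      simp only [Prod.mk.injEq] at heq
      obtain ⟨h1, h2⟩ := heq
      rw [h1] at h2
      have h3 := (hi s' hs').1
      have h4 : rows.getD (i s') ⟨[], [], [], [], [], [], []⟩ ∈ rows := by
        rw [List.getD_eq_getElem _ _ h3]
        exact List.getElem_mem h3
      have h5 := rows_inj h4 h2
      exact Nat.eq_of_mul_eq_mul_left hc h5)
  rw [Finset.card_product, Finset.card_range] at hcard
  exact hcard

theorem pow_arith {B c u X m L : ℕ} (hX : X ≤ L * m) (h1 : L ^ 2 ≤ X) (h2 : B * c ^ 4 ≤ X)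
    (hX0 : 1 ≤ X) : B * (c ^ 4 * X ^ (8 * u)) ≤ m ^ (2 * (8 * u + 1)) := by
  have h3 : X ≤ m ^ 2 := by
    have h4 : X * X ≤ X * m ^ 2 := by
      calc X * X ≤ (L * m) * (L * m) := Nat.mul_le_mul hX hX
        _ = L ^ 2 * m ^ 2 := by ring
        _ ≤ X * m ^ 2 := Nat.mul_le_mul_right _ h1
    exact Nat.le_of_mul_le_mul_left h4 hX0
  calc B * (c ^ 4 * X ^ (8 * u)) = (B * c ^ 4) * X ^ (8 * u) := by ring
    _ ≤ X * X ^ (8 * u) := Nat.mul_le_mul_right _ h2
    _ = X ^ (8 * u + 1) := by ring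
    _ ≤ (m ^ 2) ^ (8 * u + 1) := Nat.pow_le_pow_left h3 _
    _ = m ^ (2 * (8 * u + 1)) := by rw [← pow_mul]

/-- The main theorem. -/
theorem main : ∃ K D : ℕ, ∀ᶠ N : ℕ in Filter.atTop, N ≤ (goodSet K N).card ^ D := by
  obtain ⟨c, K, u, R₀, hc, hR⟩ := poly_almost_prime GG coeff_GG
  refine ⟨K, 2 * (8 * u + 1), ?_⟩
  have hu : 1 ≤ u := by
    by_contra h
    have h0 : u = 0 := by omega
    have h1 := hR R₀ le_rfl
    have h2 : (gd GG c K (2 ^ (2 ^ R₀ * u))).card ≤ 1 := by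
      have hsub : gd GG c K (2 ^ (2 ^ R₀ * u)) ⊆ Finset.range 1 := by
        intro s hs
        have := (mem_gd.mp hs).1
        rw [h0, Nat.mul_zero, pow_zero] at this
        exact Finset.mem_range.mpr this
      simpa using Finset.card_le_card hsub
    have h3 : 2 ≤ 2 ^ 2 ^ R₀ := by
      calc 2 = 2 ^ 1 := by norm_num
        _ ≤ 2 ^ 2 ^ R₀ := Nat.pow_le_pow_right (by norm_num) Nat.one_le_two_pow
    omega
  obtain ⟨R₁, hR₁⟩ : ∃ R₁ : ℕ, R₁ = max R₀ (max (rows.length ^ 2) (BB * c ^ 4)) := ⟨_, rfl⟩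
  have hB : 1 ≤ BB := BB_pos
  have hgrow : ∀ N : ℕ, N < BB * (c * 2 ^ (2 ^ N * u)) ^ 4 := by
    intro N
    have h1 : N < 2 ^ N := Nat.lt_two_pow_self
    have h1' : 2 ^ N < 2 ^ 2 ^ N := Nat.lt_two_pow_self
    have h3 : 2 ^ 2 ^ N ≤ 2 ^ (2 ^ N * u) :=
      Nat.pow_le_pow_right (by norm_num) (Nat.le_mul_of_pos_right _ hu)
    have h4 : 2 ^ (2 ^ N * u) ≤ c * 2 ^ (2 ^ N * u) := Nat.le_mul_of_pos_left _ hc
    have h5 : c * 2 ^ (2 ^ N * u) ≤ (c * 2 ^ (2 ^ N * u)) ^ 4 :=
      Nat.le_self_pow (by norm_num) _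
    have h6 : (c * 2 ^ (2 ^ N * u)) ^ 4 ≤ BB * (c * 2 ^ (2 ^ N * u)) ^ 4 :=
      Nat.le_mul_of_pos_left _ hB
    omega
  rw [Filter.eventually_atTop]
  refine ⟨BB * (c * 2 ^ (2 ^ R₁ * u)) ^ 4, fun N hN => ?_⟩
  have hex : ∃ R, N < BB * (c * 2 ^ (2 ^ R * u)) ^ 4 := ⟨N, hgrow N⟩
  classical
  obtain ⟨R, hRR⟩ : ∃ R, R = Nat.find hex := ⟨_, rfl⟩
  have hlt : N < BB * (c * 2 ^ (2 ^ R * u)) ^ 4 := by rw [hRR]; exact Nat.find_spec hex
  have hR1 : R₁ < R := by
    by_contra h
    have h' : R ≤ R₁ := not_lt.mp h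
    have hmono : BB * (c * 2 ^ (2 ^ R * u)) ^ 4 ≤ BB * (c * 2 ^ (2 ^ R₁ * u)) ^ 4 := by
      refine Nat.mul_le_mul_left _ (Nat.pow_le_pow_left (Nat.mul_le_mul_left _ ?_) 4)
      exact Nat.pow_le_pow_right (by norm_num)
        (Nat.mul_le_mul_right _ (Nat.pow_le_pow_right (by norm_num) h'))
    omega
  obtain ⟨Q, rfl⟩ : ∃ Q, R = Q + 1 := ⟨R - 1, by omega⟩
  have hle : BB * (c * 2 ^ (2 ^ Q * u)) ^ 4 ≤ N := by
    by_contra h
    have := Nat.find_min hex (m := Q) (by omega)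
    exact this (not_le.mp h)
  have hcount := goodSet_count (K := K) hc hle
  have hQ : R₁ ≤ Q := by omega
  have hcard := (hR Q (by rw [hR₁] at hQ; exact (le_max_left _ _).trans hQ)).trans hcount
  have hXQ : Q ≤ 2 ^ 2 ^ Q :=
    (Nat.lt_two_pow_self (n := Q)).le.trans (Nat.lt_two_pow_self (n := 2 ^ Q)).le
  have h1 : rows.length ^ 2 ≤ 2 ^ 2 ^ Q := by
    refine le_trans ?_ hXQ
    refine le_trans ?_ hQ
    rw [hR₁]
    exact (le_max_left _ _).trans (le_max_right _ _)
  have h2 : BB * c ^ 4 ≤ 2 ^ 2 ^ Q := by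
    refine le_trans ?_ hXQ
    refine le_trans ?_ hQ
    rw [hR₁]
    exact (le_max_right _ _).trans (le_max_right _ _)
  have hfin := pow_arith (u := u) hcard h1 h2 (Nat.one_le_two_pow)
  refine le_trans hlt.le (le_trans (le_of_eq ?_) hfin)
  rw [mul_pow, ← pow_mul, ← pow_mul]
  congr 3
  ring

end Pool.Agent.SievePar.Core
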