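import Mathlib

/-!
# A parity analogue of the question on `p` and `p(p+1)/2 + 1`

We show that there are infinitely many natural numbers `n` such that `n` and
`f n = n(n+1)/2 + 1` both have an odd number of prime factors (with multiplicity).

Ingredients:
* the identity `2 f(T) = f(n-1) f(n+1)`, where `T = n(n+1)/2`;
* infinitely many triples `m, m+1, m+2` of numbers with an odd number of prime factors,
  obtained from the substitution `x ↦ 4x^3 - 3x` started at `x = 30`, and a short deduction.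
-/

namespace Pool.Agent.Lib.MP_b07a8a_nt.ParityBothOdd

open ArithmeticFunction

/-- the number of prime factors of `n` with multiplicity is odd -/
private def O (n : ℕ) : Prop := Odd (cardFactors n)

private lemma O_mul {m n : ℕ} (hm : m ≠ 0) (hn : n ≠ 0) : O (m * n) ↔ (O m ↔ ¬ O n) := by
  unfold O
  rw [cardFactors_mul hm hn, Nat.odd_add, Nat.not_odd_iff_even]

private lemma O_prime {p : ℕ} (hp : p.Prime) : O p := by
  unfold O
  rw [cardFactors_apply_prime hp]
  exact odd_one

private lemma O_mul_sq {m n : ℕ} (hm : m ≠ 0) (hn : n ≠ 0) : O (m * n ^ 2) ↔ O m := by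
  unfold O
  rw [cardFactors_mul hm (pow_ne_zero 2 hn), cardFactors_pow, Nat.odd_add]
  constructor
  · intro h
    exact h.mpr ⟨cardFactors n, by ring⟩
  · intro h
    exact ⟨fun _ => ⟨cardFactors n, by ring⟩, fun _ => h⟩

private lemma O2 : O 2 := O_prime Nat.prime_two
private lemma O3 : O 3 := O_prime Nat.prime_three
private lemma O5 : O 5 := O_prime Nat.prime_five

private lemma O_two_mul {n : ℕ} (hn : n ≠ 0) : O (2 * n) ↔ ¬ O n := by
  rw [O_mul (by norm_num) hn]; simp [O2]

private lemma O_three_mul {n : ℕ} (hn : n ≠ 0) : O (3 * n) ↔ ¬ O n := by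
  rw [O_mul (by norm_num) hn]; simp [O3]

private lemma O_five_mul {n : ℕ} (hn : n ≠ 0) : O (5 * n) ↔ ¬ O n := by
  rw [O_mul (by norm_num) hn]; simp [O5]

/-- Step A: arbitrarily large `N` with `15 N - 1` and `15 N + 1` both of odd type. -/
private lemma stepA (B : ℕ) : ∃ N : ℕ, B < N ∧ O (15 * N - 1) ∧ O (15 * N + 1) := by
  induction B with
  | zero =>
    refine ⟨2, by norm_num, ?_, ?_⟩
    · exact O_prime (by norm_num)
    · exact O_prime (by norm_num)
  | succ B ih =>
    obtain ⟨N, hN, h1, h2⟩ := ih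
    -- x = 15 N, new x' = 4x^3 - 3x = 15 N', N' = N (900 N^2 - 3)
    obtain ⟨M, rfl⟩ : ∃ M, N = M + 1 := ⟨N - 1, by omega⟩
    set x : ℕ := 15 * (M + 1) with hx
    have hx1 : 15 * (M + 1) - 1 = 15 * M + 14 := by omega
    rw [hx, hx1] at h1
    refine ⟨(M + 1) * (900 * (M + 1) ^ 2 - 3), ?_, ?_, ?_⟩
    · have h3 : 1 ≤ (M + 1) ^ 2 := Nat.one_le_pow _ _ (by omega)
      have h4 : 2 ≤ 900 * (M + 1) ^ 2 - 3 := by omega
      calc B + 1 < (M + 1) * 2 := by omega
        _ ≤ (M + 1) * (900 * (M + 1) ^ 2 - 3) := Nat.mul_le_mul_left _ h4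
    · have key : 15 * ((M + 1) * (900 * (M + 1) ^ 2 - 3)) - 1
          = (15 * M + 14) * (30 * (M + 1) + 1) ^ 2 := by
        obtain ⟨k, hk⟩ : ∃ k, 900 * (M + 1) ^ 2 = k + 3 := ⟨900 * (M + 1) ^ 2 - 3, by
          have h3 : 1 ≤ (M + 1) ^ 2 := Nat.one_le_pow _ _ (by omega)
          omega⟩
        rw [hk, Nat.add_sub_cancel]
        apply Nat.sub_eq_of_eq_add
        have hk' : (k : ℤ) = 900 * (M + 1) ^ 2 - 3 := by
          have : (900 * ((M : ℤ) + 1) ^ 2) = k + 3 := by exact_mod_cast hk
          linarith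
        zify
        rw [hk']
        ring
      rw [key, O_mul_sq (by omega) (by omega)]
      exact h1
    · have key : 15 * ((M + 1) * (900 * (M + 1) ^ 2 - 3)) + 1
          = (15 * (M + 1) + 1) * (30 * M + 29) ^ 2 := by
        obtain ⟨k, hk⟩ : ∃ k, 900 * (M + 1) ^ 2 = k + 3 := ⟨900 * (M + 1) ^ 2 - 3, by
          have h3 : 1 ≤ (M + 1) ^ 2 := Nat.one_le_pow _ _ (by omega)
          omega⟩
        rw [hk, Nat.add_sub_cancel]
        have hk' : (k : ℤ) = 900 * (M + 1) ^ 2 - 3 := by
          have : (900 * ((M : ℤ) + 1) ^ 2) = k + 3 := by exact_mod_cast hk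
          linarith
        zify
        rw [hk']
        ring
      rw [key, O_mul_sq (by omega) (by omega)]
      exact h2

/-- Step B: from `15 N ± 1` both of odd type to three consecutive numbers of odd type. -/
private lemma stepB {N : ℕ} (hN : 1 ≤ N) (h1 : O (15 * N - 1)) (h2 : O (15 * N + 1)) :
    ∃ m : ℕ, N ≤ m ∧ O m ∧ O (m + 1) ∧ O (m + 2) := by
  by_contra hcon
  push Not at hcon
  obtain ⟨M, rfl⟩ : ∃ M, N = M + 1 := ⟨N - 1, by omega⟩
  have hx1 : 15 * (M + 1) - 1 = 15 * M + 14 := by omega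
  rw [hx1] at h1
  -- parity of 15 N
  have a15 : ¬ O (15 * (M + 1)) := by
    intro h
    have := hcon (15 * M + 14) (by omega) h1 (by
      have : 15 * M + 14 + 1 = 15 * (M + 1) := by ring
      rwa [this])
    apply this
    have : 15 * M + 14 + 2 = 15 * (M + 1) + 1 := by ring
    rwa [this]
  have hM : M + 1 ≠ 0 := by omega
  have aN : ¬ O (M + 1) := by
    have e : 15 * (M + 1) = 3 * (5 * (M + 1)) := by ring
    rw [e, O_three_mul (by omega), O_five_mul hM] at a15
    tauto
  have a12 : O (12 * (M + 1)) := by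
    have e : 12 * (M + 1) = 2 * (2 * (3 * (M + 1))) := by ring
    rw [e, O_two_mul (by omega), O_two_mul (by omega), O_three_mul hM]
    tauto
  have a20 : O (20 * (M + 1)) := by
    have e : 20 * (M + 1) = 2 * (2 * (5 * (M + 1))) := by ring
    rw [e, O_two_mul (by omega), O_two_mul (by omega), O_five_mul hM]
    tauto
  have a60m : O (60 * M + 56) := by
    have e : 60 * M + 56 = 2 * (2 * (15 * M + 14)) := by ring
    rw [e, O_two_mul (by omega), O_two_mul (by omega)]
    tauto
  have a60p : O (60 * M + 64) := by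
    have e : 60 * M + 64 = 2 * (2 * (15 * (M + 1) + 1)) := by ring
    rw [e, O_two_mul (by omega), O_two_mul (by omega)]
    tauto
  -- the two neighbours of 12 N are not both of odd type
  have h12 : ¬ (O (12 * M + 11) ∧ O (12 * M + 13)) := by
    rintro ⟨u, v⟩
    exact hcon (12 * M + 11) (by omega) u
      (by have : 12 * M + 11 + 1 = 12 * (M + 1) := by ring
          rwa [this]) v
  by_cases hp : O (12 * M + 13)
  · -- then 12 N - 1 is of even type
    have hm : ¬ O (12 * M + 11) := fun h => h12 ⟨h, hp⟩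
    have b1 : O (60 * M + 55) := by
      have e : 60 * M + 55 = 5 * (12 * M + 11) := by ring
      rw [e, O_five_mul (by omega)]
      exact hm
    have b2 : ¬ O (60 * M + 54) := fun h =>
      hcon (60 * M + 54) (by omega) h b1 a60m
    have b3 : ¬ O (60 * M + 57) := fun h =>
      hcon (60 * M + 55) (by omega) b1 a60m h
    have c1 : O (20 * M + 19) := by
      have e : 60 * M + 57 = 3 * (20 * M + 19) := by ring
      rw [e, O_three_mul (by omega)] at b3
      tauto
    have c2 : O (20 * M + 18) := by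
      have e : 60 * M + 54 = 3 * (20 * M + 18) := by ring
      rw [e, O_three_mul (by omega)] at b2
      tauto
    exact hcon (20 * M + 18) (by omega) c2 c1
      (by have : 20 * M + 18 + 2 = 20 * (M + 1) := by ring
          rwa [this])
  · have b1 : O (60 * M + 65) := by
      have e : 60 * M + 65 = 5 * (12 * M + 13) := by ring
      rw [e, O_five_mul (by omega)]
      exact hp
    have b2 : ¬ O (60 * M + 66) := fun h =>
      hcon (60 * M + 64) (by omega) a60p b1 h
    have b3 : ¬ O (60 * M + 63) := fun h =>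
      hcon (60 * M + 63) (by omega) h a60p b1
    have c1 : O (20 * M + 21) := by
      have e : 60 * M + 63 = 3 * (20 * M + 21) := by ring
      rw [e, O_three_mul (by omega)] at b3
      tauto
    have c2 : O (20 * M + 22) := by
      have e : 60 * M + 66 = 3 * (20 * M + 22) := by ring
      rw [e, O_three_mul (by omega)] at b2
      tauto
    exact hcon (20 * (M + 1)) (by omega) a20
      (by have : 20 * (M + 1) + 1 = 20 * M + 21 := by ring
          rwa [this])
      (by have : 20 * (M + 1) + 2 = 20 * M + 22 := by ring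
          rwa [this])

/-- the second number of the question -/
private def f (n : ℕ) : ℕ := n * (n + 1) / 2 + 1

private lemma two_f (n : ℕ) : 2 * f n = n * (n + 1) + 2 := by
  unfold f
  have h : 2 ∣ n * (n + 1) := (Nat.even_mul_succ_self n).two_dvd
  omega

private lemma f_ne_zero (n : ℕ) : f n ≠ 0 := by unfold f; omega

/-- the identity `2 f(T_{m+1}) = f(m) f(m+2)` -/
private lemma f_tri (m : ℕ) : 2 * f ((m + 1) * (m + 2) / 2) = f m * f (m + 2) := by
  obtain ⟨t, ht⟩ : ∃ t, (m + 1) * (m + 2) = 2 * t := by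
    have h : 2 ∣ (m + 1) * (m + 1 + 1) := (Nat.even_mul_succ_self (m + 1)).two_dvd
    obtain ⟨t, ht⟩ := h
    exact ⟨t, by rw [← ht]⟩
  have e : (m + 1) * (m + 2) / 2 = t := by rw [ht]; omega
  rw [e]
  have h1 := two_f t
  have h2 := two_f m
  have h3 := two_f (m + 2)
  have hz : (4 : ℤ) * (2 * f t) = 4 * (f m * f (m + 2)) := by
    have h1' : (2 : ℤ) * f t = t * (t + 1) + 2 := by exact_mod_cast h1
    have h2' : (2 : ℤ) * f m = m * (m + 1) + 2 := by exact_mod_cast h2
    have h3' : (2 : ℤ) * f (m + 2) = (m + 2) * (m + 2 + 1) + 2 := by exact_mod_cast h3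
    have ht' : ((m : ℤ) + 1) * (m + 2) = 2 * t := by exact_mod_cast ht
    have e1 : (4 : ℤ) * (f m * f (m + 2)) = (2 * f m) * (2 * f (m + 2)) := by ring
    rw [e1, h1', h2', h3']
    have e2 : (4 : ℤ) * (t * (t + 1) + 2) = (2 * t) * (2 * t + 2) + 8 := by ring
    rw [e2, ← ht']
    ring
  have : (4 : ℕ) * (2 * f t) = 4 * (f m * f (m + 2)) := by exact_mod_cast hz
  omega

/-- Step C -/
private lemma stepC {m : ℕ} (h0 : O m) (h1 : O (m + 1)) (h2 : O (m + 2)) :
    ∃ n : ℕ, m ≤ n ∧ O n ∧ O (f n) := by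
  by_cases a : O (f m)
  · exact ⟨m, le_refl _, h0, a⟩
  by_cases b : O (f (m + 2))
  · exact ⟨m + 2, by omega, h2, b⟩
  obtain ⟨t, ht⟩ : ∃ t, (m + 1) * (m + 2) = 2 * t := by
    have h : 2 ∣ (m + 1) * (m + 1 + 1) := (Nat.even_mul_succ_self (m + 1)).two_dvd
    obtain ⟨t, ht⟩ := h
    exact ⟨t, by rw [← ht]⟩
  have e : (m + 1) * (m + 2) / 2 = t := by rw [ht]; omega
  have ht0 : t ≠ 0 := by
    rintro rfl
    have : 0 < (m + 1) * (m + 2) := by positivity
    omega
  refine ⟨t, ?_, ?_, ?_⟩
  · nlinarith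
  · have : O (2 * t) ↔ ¬ O t := O_two_mul ht0
    rw [← ht, O_mul (by omega) (by omega)] at this
    tauto
  · have key := f_tri m
    rw [e] at key
    have : O (2 * f t) ↔ ¬ O (f t) := O_two_mul (f_ne_zero t)
    rw [key, O_mul (f_ne_zero m) (f_ne_zero _)] at this
    tauto

/-- There are infinitely many `n` such that `n` and `n(n+1)/2 + 1` both have an odd number of
prime factors, counted with multiplicity. -/
theorem result :
    {n : ℕ | Odd (ArithmeticFunction.cardFactors n) ∧
      Odd (ArithmeticFunction.cardFactors (n * (n + 1) / 2 + 1))}.Infinite := by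
  refine Set.infinite_of_forall_exists_gt fun B => ?_
  obtain ⟨N, hN, h1, h2⟩ := stepA B
  obtain ⟨m, hm, a, b, c⟩ := stepB (by omega) h1 h2
  obtain ⟨n, hn, u, v⟩ := stepC a b c
  exact ⟨n, ⟨u, v⟩, by omega⟩

end Pool.Agent.Lib.MP_b07a8a_nt.ParityBothOdd
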